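import Pool.Agent.helper28.LT.Base
import Pool.Agent.helper61.FT.A1
import Pool.Agent.helper62.LT.TB

set_option autoImplicit false

/-!
# No prime away from `f` contains `Z`, `α` and its conjugate
-/

namespace Pool.Agent.helper28.LT

open Finset NumberField Pool.Agent.helper3.FT Pool.Agent.helper47.RA

variable {K : Type} [Field K] [NumberField K]

/-- the integers in a prime ideal above `q` -/
theorem CO_mem (P : Ideal (𝓞 K)) (hP : P.IsPrime) (q : ℕ) (hq : q.Prime)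
    (hqP : (q : 𝓞 K) ∈ P) (c : ℤ) (hc : (c : 𝓞 K) ∈ P) : (q : ℤ) ∣ c := by
  by_contra h
  have h1 : IsCoprime (q : ℤ) c := (Nat.prime_iff_prime_int.mp hq).coprime_iff_not_dvd.2 h
  obtain ⟨a, b, h2⟩ := h1
  have h3 := congrArg (Int.cast (R := 𝓞 K)) h2
  push_cast at h3
  apply hP.ne_top
  rw [Ideal.eq_top_iff_one, ← h3]
  exact P.add_mem (P.mul_mem_left _ hqP) (P.mul_mem_left _ hc)

variable {Q : QF K} {κ s f : ℕ}

/-- CO (from TB3): no prime ideal away from `f` contains `Z`, `α` and its conjugate -/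
theorem El.cop (E : El Q κ s f) (hf : 1 ≤ f) (P : Ideal (𝓞 K)) (hP : P.IsPrime) (h1 : E.α ∈ P)
    (h2 : Q.cj E.α ∈ P) (q : ℕ) (hq : q.Prime) (hqP : (q : 𝓞 K) ∈ P) : q ∣ f := by
  by_contra hqf
  have hq' : Prime (q : ℤ) := Nat.prime_iff_prime_int.mp hq
  have hqf' : ¬ (q : ℤ) ∣ f := by exact_mod_cast hqf
  have hmem := CO_mem P hP q hq hqP
  have hZ : (q : ℤ) ∣ E.Z := by
    apply hq'.dvd_of_dvd_pow (n := 5)
    apply hmem
    have h := P.mul_mem_right (Q.cj E.α) h1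
    rw [E.nα] at h
    push_cast
    exact h
  obtain ⟨τ, hτ, -⟩ := Q.exists_trace E.α
  have hqτ : (q : ℤ) ∣ τ := by
    apply hmem
    rw [← hτ]
    exact P.add_mem h1 h2
  have hsub := Q.sub_cj E.α
  have hsubm : E.α - Q.cj E.α ∈ P := P.sub_mem h1 h2
  rw [hsub] at hsubm
  by_cases hy : (q : ℤ) ∣ E.y
  · have hm : (q : ℤ) ∣ E.m := by
      apply hq'.dvd_of_dvd_pow (n := 2)
      have e : E.m ^ 2 = E.Z * (E.n : ℤ) ^ 2 - E.k * E.y := by rw [E.hy]; ring
      rw [e]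
      exact dvd_sub (dvd_mul_of_dvd_left hZ _) (dvd_mul_of_dvd_right hy _)
    by_cases hqn : q = E.n
    · exact E.tup.r5 ⟨hqn ▸ hZ, hqn ▸ hm⟩
    · by_cases hqk : q = E.k
      · subst hqk
        have h3 : (E.k : ℤ) ^ 2 ∣ E.Z * (E.n : ℤ) ^ 2 := by
          have e : E.Z * (E.n : ℤ) ^ 2 = E.k * E.y + E.m ^ 2 := by rw [E.hy]; ring
          rw [e]
          exact dvd_add (by rw [sq]; exact mul_dvd_mul_left _ hy) (pow_dvd_pow_of_dvd hm 2)
        have h4 : IsCoprime ((E.k : ℤ) ^ 2) ((E.n : ℤ) ^ 2) := by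
          apply IsCoprime.pow
          exact Nat.isCoprime_iff_coprime.2 ((Nat.coprime_primes E.tup.hk E.tup.hn).2
            (Ne.symm E.tup.hnk))
        exact E.tup.r2 (h4.dvd_of_dvd_mul_right h3)
      · exact E.tup.good f Q.D Q.hD rfl q hq hqf hqn hqk hZ hm
  · -- `δ ∈ P`
    have hfy : ¬ (q : ℤ) ∣ (f : ℤ) * E.y := by
      rw [hq'.dvd_mul]
      tauto
    have hδ : (2 * Q.ω - Q.t : 𝓞 K) ∈ P := by
      rcases hP.mem_or_mem hsubm with h | h
      · exact absurd (hmem _ h) (by rw [E.Yα]; exact hfy)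
      · exact h
    have hD : (q : ℤ) ∣ Q.D := by
      apply hmem
      rw [← Q.delta_sq, sq]
      exact P.mul_mem_left _ hδ
    have key : τ ^ 2 - ((f : ℤ) * E.y) ^ 2 * Q.D = 4 * E.Z ^ 5 := by
      apply QF.int_inj (K := K)
      push_cast
      have h3 : ((E.α : 𝓞 K) - Q.cj E.α) ^ 2 = ((f : 𝓞 K) * E.y) ^ 2 * Q.D := by
        rw [hsub, E.Yα, mul_pow, Q.delta_sq]
        push_cast
        ring
      rw [← h3, ← hτ]
      linear_combination 4 * E.nα
    have hfund := Q.hD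
    -- q² ∣ (f y)² D
    have h5 : (q : ℤ) ^ 2 ∣ ((f : ℤ) * E.y) ^ 2 * Q.D := by
      have e : ((f : ℤ) * E.y) ^ 2 * Q.D = τ ^ 2 - 4 * E.Z ^ 5 := by linarith
      rw [e]
      refine dvd_sub (pow_dvd_pow_of_dvd hqτ 2) (dvd_mul_of_dvd_right ?_ _)
      exact (pow_dvd_pow_of_dvd hZ 2).trans (pow_dvd_pow _ (by norm_num))
    have h6 : (q : ℤ) ^ 2 ∣ Q.D := by
      have : IsCoprime ((q : ℤ) ^ 2) (((f : ℤ) * E.y) ^ 2) :=
        IsCoprime.pow (hq'.coprime_iff_not_dvd.2 hfy)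
      exact this.dvd_of_dvd_mul_left h5
    rcases hfund.sq_dvd h6 with h7 | ⟨m, hm, hm4, h7⟩
    · exact hq'.not_isUnit h7
    · have hq2 : q = 2 := by
        have := hq.pos
        omega
      subst hq2
      have hfy1 : ((f : ℤ) * E.y) % 2 = 1 := by
        push_cast at hfy
        omega
      obtain ⟨c, hc⟩ : ∃ c, (f : ℤ) * E.y = 2 * c + 1 := ⟨(f : ℤ) * E.y / 2, by omega⟩
      obtain ⟨τ', hτ'⟩ := hqτ
      obtain ⟨z, hz⟩ := hZ
      push_cast at hτ' hz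
      rw [hc, hm, hτ', hz] at key
      have key2 : τ' ^ 2 - (2 * c + 1) ^ 2 * m = 32 * z ^ 5 := by linarith
      have h8 : τ' ^ 2 % 4 = 0 ∨ τ' ^ 2 % 4 = 1 := by
        rcases Int.emod_two_eq_zero_or_one τ' with h | h
        · obtain ⟨d, hd⟩ : ∃ d, τ' = 2 * d := ⟨τ' / 2, by omega⟩
          left
          rw [hd]; ring_nf; omega
        · obtain ⟨d, hd⟩ : ∃ d, τ' = 2 * d + 1 := ⟨τ' / 2, by omega⟩
          right
          rw [hd]; ring_nf; omega
      have h9 : τ' ^ 2 = m + 4 * ((c ^ 2 + c) * m + 8 * z ^ 5) := by linarith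
      omega

end Pool.Agent.helper28.LT
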