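import Pool.Agent.helper26.LT.SP
import Pool.Agent.helper26.LT.CO
import Pool.Agent.helper3.FT.G1

set_option autoImplicit false

/-!
# The factorizations of the elements of a tuple
-/

namespace Pool.Agent.helper28.LT

open Finset NumberField Pool.Agent.helper3.FT Pool.Agent.helper47.RA

variable {K : Type} [Field K] [NumberField K]

theorem FA_cop {a b f : ℕ} (h : Nat.Coprime a f) (hb : ∀ p : ℕ, p.Prime → p ∣ b → p ∣ f) :
    Nat.Coprime a b := by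
  by_contra hc
  obtain ⟨p, hp, h1, h2⟩ := Nat.Prime.not_coprime_iff_dvd.1 hc
  exact Nat.Prime.not_coprime_iff_dvd.2 ⟨p, hp, h1, hb p hp h2⟩ h

theorem FA_split (f : ℕ) (z : ℤ) (hz : 0 < z) : ∃ b g : ℕ, 1 ≤ b ∧ 1 ≤ g ∧ z = b * g ∧
    Nat.Coprime g f ∧ ∀ p : ℕ, p.Prime → p ∣ b → p ∣ f := by
  obtain ⟨b, g, h1, h2, h3⟩ := split_part f z.toNat (by omega)
  have h4 : 1 ≤ b := by
    rcases Nat.eq_zero_or_pos b with h | h
    · subst h; simp at h1; omega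
    · exact h
  have h5 : 1 ≤ g := by
    rcases Nat.eq_zero_or_pos g with h | h
    · subst h; simp at h1; omega
    · exact h
  refine ⟨b, g, h4, h5, ?_, h2, h3⟩
  have h6 : ((z.toNat : ℕ) : ℤ) = z := Int.toNat_of_nonneg hz.le
  rw [← h6, h1]
  push_cast
  ring

theorem FA_span_cop {a b : ℕ} {I J : Ideal (𝓞 K)} (h : Nat.Coprime a b) (hI : (a : 𝓞 K) ∈ I)
    (hJ : (b : 𝓞 K) ∈ J) : IsCoprime I J := by
  rw [Ideal.isCoprime_iff_sup_eq]
  exact SP_top a b h (Ideal.mem_sup_left hI) (Ideal.mem_sup_right hJ)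

theorem FA_mem_left {I J : Ideal (𝓞 K)} {j : ℕ} (h : I * J = Ideal.span {(j : 𝓞 K)}) :
    (j : 𝓞 K) ∈ I := by
  have h1 : (j : 𝓞 K) ∈ I * J := by
    rw [h]
    exact Ideal.mem_span_singleton_self _
  exact Ideal.mul_le_left h1

theorem FA_mem_right {I J : Ideal (𝓞 K)} {j : ℕ} (h : I * J = Ideal.span {(j : 𝓞 K)}) :
    (j : 𝓞 K) ∈ J := by
  have h1 : (j : 𝓞 K) ∈ I * J := by
    rw [h]
    exact Ideal.mem_span_singleton_self _
  exact Ideal.mul_le_right h1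

theorem FA_span_ne (j : ℕ) (hj : 1 ≤ j) : Ideal.span {(j : 𝓞 K)} ≠ 0 := by
  rw [Ne, Ideal.zero_eq_bot, Ideal.span_singleton_eq_bot]
  have : j ≠ 0 := by omega
  exact_mod_cast this

theorem FA_prime (P : Ideal (𝓞 K)) (hP : P.IsPrime) (g : ℕ) (hg : 1 ≤ g) (h : (g : 𝓞 K) ∈ P) :
    ∃ q : ℕ, q.Prime ∧ q ∣ g ∧ (q : 𝓞 K) ∈ P := by
  induction g using Nat.strong_induction_on with
  | _ g ih =>
    by_cases h1 : g = 1
    · subst h1
      exact absurd (P.eq_top_iff_one.2 (by simpa using h)) hP.ne_top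
    · have hq := Nat.minFac_prime h1
      obtain ⟨c, hc⟩ := Nat.minFac_dvd g
      have h2 : ((g.minFac : ℕ) : 𝓞 K) * (c : 𝓞 K) ∈ P := by
        rw [← Nat.cast_mul, ← hc]
        exact h
      have hc1 : 1 ≤ c := by
        rcases Nat.eq_zero_or_pos c with h0 | h0
        · subst h0
          simp at hc
          omega
        · exact h0
      rcases hP.mem_or_mem h2 with h3 | h3
      · exact ⟨_, hq, Nat.minFac_dvd g, h3⟩
      · obtain ⟨q, h4, h5, h6⟩ := ih c (by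
          have := hq.two_le
          nlinarith) hc1 h3
        exact ⟨q, h4, h5.trans ⟨g.minFac, by rw [mul_comm]; exact hc⟩, h6⟩

variable {Q : QF K} {κ s f : ℕ}

/-- the coprimality of the good part of `(α)` -/
theorem FA_bar_cop (E : El Q κ s f) (hf : 1 ≤ f) (g : ℕ) (hg : 1 ≤ g) (hc : Nat.Coprime g f)
    (I J : Ideal (𝓞 K)) (h1 : Ideal.span {E.α} = I * J)
    (h2 : I * Q.bar I = Ideal.span {((g ^ 5 : ℕ) : 𝓞 K)}) : IsCoprime I (Q.bar I) := by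
  rw [Ideal.isCoprime_iff_sup_eq]
  by_contra hne
  obtain ⟨P, hP, hle⟩ := Ideal.exists_le_maximal _ hne
  have hαIJ : E.α ∈ I * J := by
    rw [← h1]
    exact Ideal.mem_span_singleton_self _
  have hαI : E.α ∈ I := Ideal.mul_le_left hαIJ
  have hα : E.α ∈ P := hle (Ideal.mem_sup_left hαI)
  have hα' : Q.cj E.α ∈ P := hle (Ideal.mem_sup_right (Ideal.mem_map_of_mem _ hαI))
  have hgI : ((g ^ 5 : ℕ) : 𝓞 K) ∈ P := hle (Ideal.mem_sup_left (FA_mem_left h2))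
  have hgP : (g : 𝓞 K) ∈ P := by
    apply hP.isPrime.mem_of_pow_mem 5
    push_cast at hgI
    exact hgI
  -- a prime factor of `g` lies in `P`
  obtain ⟨q, hq, hqg, hqP⟩ := FA_prime P hP.isPrime g hg hgP
  have h4 := E.cop hf P hP.isPrime hα hα' q hq hqP
  exact Nat.Prime.not_coprime_iff_dvd.2 ⟨q, hq, hqg, h4⟩ hc

/-- FA (from CO, SP) -/
theorem exists_Fac (E : El Q κ s f) (hf : 1 ≤ f) : Nonempty (Fac E) := by
  obtain ⟨Zb, Zg, hb1, hg1, hZ, cZ, pZ⟩ := FA_split f E.Z E.tup.Z_pos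
  obtain ⟨Lb, Lg, hLb1, hLg1, hL, cL, pL⟩ := FA_split f E.Λ E.tup.Λ_pos
  have c1 : Nat.Coprime Zg Zb := FA_cop cZ pZ
  have c2 : Nat.Coprime Zg Lb := FA_cop cZ pL
  have c3 : Nat.Coprime Lg Zb := FA_cop cL pZ
  have c4 : Nat.Coprime Lg Lb := FA_cop cL pL
  -- α
  obtain ⟨B1, A, hα, nB1, nA⟩ := split Q E.α (Zg ^ 5) (Zb ^ 5) (Nat.one_le_pow _ _ hg1)
    (Nat.one_le_pow _ _ hb1) (Nat.Coprime.pow 5 5 c1) (by
      rw [E.nα, hZ]; push_cast; ring)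
  have hcop := FA_bar_cop E hf Zg hg1 cZ B1 A hα nB1
  have nB1' : B1 * Q.bar B1 = (Ideal.span {(Zg : 𝓞 K)}) ^ 5 := by
    rw [nB1, Ideal.span_singleton_pow]
    push_cast
    rfl
  obtain ⟨a, ha⟩ := exists_eq_pow_of_mul_eq_pow_of_coprime hcop nB1'
  have hbarB1 : Q.bar B1 = Q.bar a ^ 5 := by rw [ha, Q.bar_pow]
  have na : a * Q.bar a = Ideal.span {(Zg : 𝓞 K)} := by
    apply pow_inj _ _ 5 (by norm_num)
    rw [mul_pow, ← ha, ← hbarB1, nB1']
  have ca : IsCoprime a (Q.bar a) := by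
    have hcop' : IsCoprime (a ^ 5) (Q.bar a ^ 5) := by
      rw [← hbarB1, ← ha]
      exact hcop
    exact (IsCoprime.pow_iff (by norm_num) (by norm_num)).1 hcop'
  -- β
  obtain ⟨B, B2, hβ, nB, nB2⟩ := split Q E.β (Zb ^ 2 * Lb) (Zg ^ 2 * Lg)
    (Nat.mul_pos (pow_pos hb1 2) hLb1) (Nat.mul_pos (pow_pos hg1 2) hLg1) (Nat.Coprime.mul_left
      (Nat.Coprime.mul_right (Nat.Coprime.pow 2 2 c1.symm) (Nat.Coprime.pow_left 2 c3.symm))
      (Nat.Coprime.mul_right (Nat.Coprime.pow_right 2 c2.symm) c4.symm)) (by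
      rw [E.nβ, hZ, hL]; push_cast; ring)
  -- the conjugate of `β`
  have hβ' : Ideal.span {Q.cj E.β} = Q.bar B * Q.bar B2 := by
    rw [← Q.bar_span, hβ, Q.bar_mul]
  have hprod : Ideal.span {E.α} * Ideal.span {Q.cj E.β} =
      Ideal.span {(E.Z : 𝓞 K) ^ 2} * Ideal.span {E.u} := by
    rw [Ideal.span_singleton_mul_span_singleton, Ideal.span_singleton_mul_span_singleton, E.e5]
  have hZ2 : Q.bar a ^ 2 ∣ Ideal.span {(E.Z : 𝓞 K) ^ 2} := by
    have h1 : Ideal.span {(E.Z : 𝓞 K) ^ 2} = Ideal.span {(Zb : 𝓞 K)} ^ 2 * (a * Q.bar a) ^ 2 := by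
      rw [na, ← mul_pow, Ideal.span_singleton_mul_span_singleton, Ideal.span_singleton_pow, hZ]
      push_cast
      rfl
    rw [h1, mul_pow a]
    exact Dvd.intro_left (Ideal.span {(Zb : 𝓞 K)} ^ 2 * a ^ 2) (by ring)
  have hd1 : Q.bar a ^ 2 ∣ (a ^ 5 * A * Q.bar B) * Q.bar B2 := by
    have h1 : (a ^ 5 * A * Q.bar B) * Q.bar B2 = Ideal.span {(E.Z : 𝓞 K) ^ 2} * Ideal.span {E.u} := by
      rw [← hprod, hα, hβ', ha]
      ring
    rw [h1]
    exact Dvd.dvd.mul_right hZ2 _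
  have hZgm : (Zg : 𝓞 K) ∈ Q.bar a := FA_mem_right na
  have k1 : IsCoprime (Q.bar a) (a ^ 5) := ca.symm.pow_right
  have k2 : IsCoprime (Q.bar a) A :=
    FA_span_cop (Nat.Coprime.pow_right 5 c1) hZgm (FA_mem_left nA)
  have k3 : IsCoprime (Q.bar a) (Q.bar B) :=
    FA_span_cop (Nat.Coprime.mul_right (Nat.Coprime.pow_right 2 c1) c2) hZgm (FA_mem_right nB)
  have k4 : IsCoprime (Q.bar a ^ 2) (a ^ 5 * A * Q.bar B) :=
    (IsCoprime.mul_right (IsCoprime.mul_right k1 k2) k3).pow_left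
  have hd2 : Q.bar a ^ 2 ∣ Q.bar B2 := k4.dvd_of_dvd_mul_left hd1
  have hd3 : a ^ 2 ∣ B2 := by
    obtain ⟨C, hC⟩ := hd2
    refine ⟨Q.bar C, ?_⟩
    rw [← Q.bar_bar B2, hC, Q.bar_mul, Q.bar_pow, Q.bar_bar]
  obtain ⟨L, hL2⟩ := hd3
  have nL : L * Q.bar L = Ideal.span {(Lg : 𝓞 K)} := by
    have h1 : Ideal.span {(Zg : 𝓞 K)} ^ 2 * (L * Q.bar L) =
        Ideal.span {(Zg : 𝓞 K)} ^ 2 * Ideal.span {(Lg : 𝓞 K)} := by
      have h2 : Ideal.span {((Zg ^ 2 * Lg : ℕ) : 𝓞 K)} =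
          Ideal.span {(Zg : 𝓞 K)} ^ 2 * Ideal.span {(Lg : 𝓞 K)} := by
        rw [Ideal.span_singleton_pow, Ideal.span_singleton_mul_span_singleton]
        push_cast
        rfl
      rw [← h2, ← nB2, hL2, Q.bar_mul, Q.bar_pow, ← na]
      ring
    exact mul_left_cancel₀ (pow_ne_zero _ (FA_span_ne Zg hg1)) h1
  exact ⟨{
    Zb := Zb
    Zg := Zg
    Λb := Lb
    Λg := Lg
    hZ := hZ
    hΛ := hL
    cZ := cZ
    cΛ := cL
    pZ := pZ
    pΛ := pL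
    a := a
    A := A
    L := L
    B := B
    iα := by rw [hα, ha]
    iβ := by rw [hβ, hL2]; ring
    na := na
    nA := by rw [nA]; push_cast; rfl
    nL := nL
    nB := by rw [nB]; push_cast; rfl
    ca := Ideal.isCoprime_iff_sup_eq.1 ca }⟩

end Pool.Agent.helper28.LT
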