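import Pool.Agent.helper28.LT.Base
import Pool.Agent.helper96.FT.A2

set_option autoImplicit false

/-!
# Coprime splitting of a principal ideal
-/

namespace Pool.Agent.helper28.LT

open Finset NumberField Pool.Agent.helper3.FT Pool.Agent.helper47.RA

variable {K : Type} [Field K] [NumberField K]

theorem SP_bar_pair (Q : QF K) (x : 𝓞 K) (j : ℕ) :
    Q.bar (Ideal.span {x, (j : 𝓞 K)}) = Ideal.span {Q.cj x, (j : 𝓞 K)} := by
  unfold QF.bar
  rw [Ideal.map_span, Set.image_pair, map_natCast]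

theorem SP_one {R : Type} [CommRing R] (j j' : ℕ) (hc : Nat.Coprime j j') :
    ∃ a b : R, (1 : R) = (j : R) * a + (j' : R) * b := by
  have h1 : ((Int.gcd (j : ℤ) j' : ℕ) : ℤ) = j * Int.gcdA j j' + j' * Int.gcdB j j' :=
    Int.gcd_eq_gcd_ab _ _
  have h2 : Int.gcd (j : ℤ) j' = 1 := by
    rw [Int.gcd_natCast_natCast]; exact hc
  rw [h2] at h1
  have := congrArg (Int.cast (R := R)) h1
  push_cast at this
  exact ⟨_, _, this⟩

theorem SP_top {R : Type} [CommRing R] {I : Ideal R} (j j' : ℕ) (hc : Nat.Coprime j j')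
    (h : (j : R) ∈ I) (h' : (j' : R) ∈ I) : I = ⊤ := by
  rw [Ideal.eq_top_iff_one]
  obtain ⟨a, b, h1⟩ := SP_one (R := R) j j' hc
  rw [h1]
  exact I.add_mem (I.mul_mem_right _ h) (I.mul_mem_right _ h')

theorem SP_pair (Q : QF K) (x : 𝓞 K) (j j' : ℕ)
    (hc : Nat.Coprime j j') (hx : x * Q.cj x = (j : 𝓞 K) * (j' : 𝓞 K)) :
    Ideal.span {x, (j : 𝓞 K)} * Q.bar (Ideal.span {x, (j : 𝓞 K)}) = Ideal.span {(j : 𝓞 K)} := by
  rw [SP_bar_pair, Ideal.span_pair_mul_span_pair]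
  apply le_antisymm
  · rw [Ideal.span_le]
    rintro y hy
    simp only [Set.mem_insert_iff, Set.mem_singleton_iff] at hy
    rw [SetLike.mem_coe, Ideal.mem_span_singleton]
    rcases hy with rfl | rfl | rfl | rfl
    · rw [hx]; exact dvd_mul_right _ _
    · exact dvd_mul_left _ _
    · exact dvd_mul_right _ _
    · exact dvd_mul_right _ _
  · rw [Ideal.span_singleton_le_iff_mem]
    obtain ⟨a, b, h1⟩ := SP_one (R := 𝓞 K) j j' hc
    have h2 : (j : 𝓞 K) = (j * j : 𝓞 K) * a + (x * Q.cj x) * b := by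
      rw [hx]
      linear_combination (j : 𝓞 K) * h1
    have h3 : (j * j : 𝓞 K) * a + (x * Q.cj x) * b ∈
        Ideal.span {x * Q.cj x, x * (j : 𝓞 K), (j : 𝓞 K) * Q.cj x, (j : 𝓞 K) * j} :=
      Ideal.add_mem _ (Ideal.mul_mem_right _ _ (Ideal.subset_span (by simp)))
        (Ideal.mul_mem_right _ _ (Ideal.subset_span (by simp)))
    rwa [← h2] at h3

/-- SP: coprime splitting of a principal ideal -/
theorem split (Q : QF K) (x : 𝓞 K) (j j' : ℕ) (hj : 1 ≤ j) (hj' : 1 ≤ j')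
    (hc : Nat.Coprime j j') (hx : x * Q.cj x = (j : 𝓞 K) * (j' : 𝓞 K)) :
    ∃ B B' : Ideal (𝓞 K), Ideal.span {x} = B * B' ∧ B * Q.bar B = Ideal.span {(j : 𝓞 K)} ∧
      B' * Q.bar B' = Ideal.span {(j' : 𝓞 K)} := by
  refine ⟨Ideal.span {x, (j : 𝓞 K)}, Ideal.span {x, (j' : 𝓞 K)}, ?_, SP_pair Q x j j' hc hx,
    SP_pair Q x j' j hc.symm (by rw [hx, mul_comm])⟩
  rw [Ideal.span_pair_mul_span_pair]
  apply le_antisymm
  · rw [Ideal.span_singleton_le_iff_mem]
    obtain ⟨a, b, h1⟩ := SP_one (R := 𝓞 K) j j' hc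
    have h2 : x = ((j : 𝓞 K) * x) * a + (x * (j' : 𝓞 K)) * b := by
      linear_combination x * h1
    have h3 : ((j : 𝓞 K) * x) * a + (x * (j' : 𝓞 K)) * b ∈
        Ideal.span {x * x, x * (j' : 𝓞 K), (j : 𝓞 K) * x, (j : 𝓞 K) * (j' : 𝓞 K)} :=
      Ideal.add_mem _ (Ideal.mul_mem_right _ _ (Ideal.subset_span (by simp)))
        (Ideal.mul_mem_right _ _ (Ideal.subset_span (by simp)))
    rwa [← h2] at h3
  · rw [Ideal.span_le]
    rintro y hy
    simp only [Set.mem_insert_iff, Set.mem_singleton_iff] at hy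
    rw [SetLike.mem_coe, Ideal.mem_span_singleton]
    rcases hy with rfl | rfl | rfl | rfl
    · exact dvd_mul_right _ _
    · exact dvd_mul_right _ _
    · exact dvd_mul_left _ _
    · rw [← hx]; exact dvd_mul_right _ _

end Pool.Agent.helper28.LT
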