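import Pool.Agent.helper28.LT.Base

set_option autoImplicit false

/-!
# The number of ideals dividing an integer
-/

namespace Pool.Agent.helper28.LT

open Finset NumberField Pool.Agent.helper3.FT Pool.Agent.helper47.RA

variable {K : Type} [Field K] [NumberField K]

theorem TA_fin (J : Ideal (𝓞 K)) (hJ : J ≠ 0) : {I : Ideal (𝓞 K) | I ∣ J}.Finite := by
  have h := (UniqueFactorizationMonoid.fintypeSubtypeDvd J hJ)
  exact (Set.finite_range (fun x : {I : Ideal (𝓞 K) // I ∣ J} => x.1)).subset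
    fun I hI => ⟨⟨I, hI⟩, rfl⟩

theorem TA_mul (I J : Ideal (𝓞 K)) (hI : I ≠ 0) (hJ : J ≠ 0) :
    {L : Ideal (𝓞 K) | L ∣ I * J}.ncard ≤
      {L : Ideal (𝓞 K) | L ∣ I}.ncard * {L : Ideal (𝓞 K) | L ∣ J}.ncard := by
  have hI' := TA_fin I hI
  have hJ' := TA_fin J hJ
  have h : {L : Ideal (𝓞 K) | L ∣ I * J} ⊆
      (fun p : Ideal (𝓞 K) × Ideal (𝓞 K) => p.1 * p.2) ''
        ({L : Ideal (𝓞 K) | L ∣ I} ×ˢ {L : Ideal (𝓞 K) | L ∣ J}) := by
    intro L hL
    obtain ⟨d₁, d₂, h1, h2, h3⟩ := exists_dvd_and_dvd_of_dvd_mul hL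
    exact ⟨(d₁, d₂), ⟨h1, h2⟩, h3.symm⟩
  calc _ ≤ _ := Set.ncard_le_ncard h ((hI'.prod hJ').image _)
    _ ≤ _ := Set.ncard_image_le (hI'.prod hJ')
    _ = _ := Set.ncard_prod

theorem TA_pow (P : Ideal (𝓞 K)) (hP : Prime P) (a : ℕ) :
    {L : Ideal (𝓞 K) | L ∣ P ^ a}.ncard ≤ a + 1 := by
  have h : {L : Ideal (𝓞 K) | L ∣ P ^ a} ⊆
      (((Finset.range (a + 1)).image (fun i => P ^ i) : Finset (Ideal (𝓞 K))) : Set (Ideal (𝓞 K))) := by
    intro L hL
    obtain ⟨i, hi, h1⟩ := (dvd_prime_pow hP a).1 hL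
    rw [Finset.coe_image]
    exact ⟨i, by simpa using Nat.lt_succ_of_le hi, (associated_iff_eq.1 h1).symm⟩
  calc _ ≤ _ := Set.ncard_le_ncard h (Finset.finite_toSet _)
    _ = _ := Set.ncard_coe_finset _
    _ ≤ _ := Finset.card_image_le
    _ = _ := Finset.card_range _

theorem TA_prime (h2 : Module.finrank ℚ K = 2) (q : ℕ) (hq : q.Prime) :
    Prime (Ideal.span {(q : 𝓞 K)}) ∨ ∃ P P' : Ideal (𝓞 K), Prime P ∧ Prime P' ∧
      Ideal.span {(q : 𝓞 K)} = P * P' := by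
  have hN : Ideal.absNorm (Ideal.span {(q : 𝓞 K)}) = q ^ 2 := by
    rw [Ideal.absNorm_span_natCast, RingOfIntegers.rank, h2]
  have h0 : Ideal.span {(q : 𝓞 K)} ≠ 0 := by
    rw [Ne, Ideal.zero_eq_bot, Ideal.span_singleton_eq_bot]
    exact_mod_cast hq.ne_zero
  have h1 : ¬ IsUnit (Ideal.span {(q : 𝓞 K)}) := by
    rw [Ideal.isUnit_iff, ← Ideal.absNorm_eq_one_iff, hN]
    have := hq.one_lt
    nlinarith
  obtain ⟨P, hP, P', hPP⟩ := WfDvdMonoid.exists_irreducible_factor h1 h0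
  have hP' : Prime P := UniqueFactorizationMonoid.irreducible_iff_prime.1 hP
  have h3 : Ideal.absNorm P * Ideal.absNorm P' = q ^ 2 := by rw [← map_mul, ← hPP, hN]
  obtain ⟨i, hi, h4⟩ := (Nat.dvd_prime_pow hq).1 (Dvd.intro _ h3)
  interval_cases i
  · rw [pow_zero, Ideal.absNorm_eq_one_iff] at h4
    exact absurd (Ideal.isUnit_iff.2 h4) hP'.not_isUnit
  · right
    rw [pow_one] at h4
    have h5 : Ideal.absNorm P' = q := by
      rw [h4, sq] at h3
      exact Nat.eq_of_mul_eq_mul_left hq.pos h3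
    refine ⟨P, P', hP', ?_, hPP⟩
    have h6 : P' ≠ ⊥ := by
      rintro rfl
      rw [Ideal.absNorm_bot] at h5
      exact hq.ne_zero h5.symm
    apply Ideal.prime_of_isPrime h6
    apply Ideal.isPrime_of_irreducible_absNorm
    rw [h5]
    exact hq
  · left
    have h5 : Ideal.absNorm P' = 1 := by
      rw [h4] at h3
      have : q ^ 2 * Ideal.absNorm P' = q ^ 2 * 1 := by rw [h3, mul_one]
      exact Nat.eq_of_mul_eq_mul_left (pow_pos hq.pos 2) this
    rw [Ideal.absNorm_eq_one_iff] at h5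
    rw [hPP, h5, Ideal.mul_top]
    exact hP'

theorem TA_main (h2 : Module.finrank ℚ K = 2) (j : ℕ) (hj : 1 ≤ j) :
    {I : Ideal (𝓞 K) | I ∣ Ideal.span {(j : 𝓞 K)}}.ncard ≤ j.divisors.card ^ 2 := by
  induction j using Nat.recOnPosPrimePosCoprime with
  | prime_pow q a hq ha =>
    rw [Nat.divisors_prime_pow hq, Finset.card_map, Finset.card_range, Nat.cast_pow,
      ← Ideal.span_singleton_pow]
    rcases TA_prime h2 q hq with h | ⟨P, P', hP, hP', h⟩
    · exact (TA_pow _ h a).trans (by nlinarith)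
    · rw [h, mul_pow]
      refine (TA_mul _ _ (pow_ne_zero _ hP.ne_zero) (pow_ne_zero _ hP'.ne_zero)).trans ?_
      rw [sq]
      exact Nat.mul_le_mul (TA_pow P hP a) (TA_pow P' hP' a)
  | zero => omega
  | one =>
    have h : {I : Ideal (𝓞 K) | I ∣ Ideal.span {((1 : ℕ) : 𝓞 K)}} ⊆ {⊤} := by
      intro I hI
      have h3 : I ∣ Ideal.span {((1 : ℕ) : 𝓞 K)} := hI
      rw [Nat.cast_one, Ideal.span_singleton_one, Ideal.dvd_iff_le, top_le_iff] at h3
      exact h3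
    refine (Set.ncard_le_ncard h (Set.finite_singleton _)).trans ?_
    simp
  | coprime a b ha hb hab iha ihb =>
    rw [Nat.cast_mul, ← Ideal.span_singleton_mul_span_singleton,
      Nat.Coprime.card_divisors_mul hab, mul_pow]
    have h0 : ∀ c : ℕ, 1 < c → Ideal.span {(c : 𝓞 K)} ≠ 0 := by
      intro c hc
      rw [Ne, Ideal.zero_eq_bot, Ideal.span_singleton_eq_bot]
      have : c ≠ 0 := by omega
      exact_mod_cast this
    exact (TA_mul _ _ (h0 a ha) (h0 b hb)).trans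
      (Nat.mul_le_mul (iha ha.le) (ihb hb.le))

/-- TA: number of ideals dividing an integer -/
theorem card_ideal_dvd (j : ℕ) (hj : 1 ≤ j) :
    {I : Ideal (𝓞 K) | I ∣ Ideal.span {(j : 𝓞 K)}}.Finite ∧
      (Module.finrank ℚ K = 2 →
        {I : Ideal (𝓞 K) | I ∣ Ideal.span {(j : 𝓞 K)}}.ncard ≤ j.divisors.card ^ 2) := by
  refine ⟨TA_fin _ ?_, fun h2 => TA_main h2 j hj⟩
  rw [Ne, Ideal.zero_eq_bot, Ideal.span_singleton_eq_bot]
  have : j ≠ 0 := by omega
  exact_mod_cast this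

end Pool.Agent.helper28.LT
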